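import Mathlib

set_option autoImplicit false

/-!
# A matrix `X^[*] X` with square roots but without `H`-selfadjoint square roots

Let `H = diag(1, 1, -1, -1)` and let `X` be the invertible real matrix which maps `e₁, e₂, e₃, e₄` to
`e₃, e₄, √2 e₁, √2 e₂`. Then `X^[*] X = diag(-1, -1, -2, -2)` has the real square root `J ⊕ √2 J`, `J` the
rotation by a right angle. An `H`-selfadjoint square root `A` would commute with `X^[*] X`, so it would
be block diagonal, and its upper left block would be a hermitian matrix with square `-1`.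
-/

open Matrix

namespace Pool.Agent.Results.MP_154e02_al.NoSelfadjointRoot

variable {𝕜 : Type*} [RCLike 𝕜]

/-- The `H`-adjoint `H⁻¹ X* H` of `X`. -/
noncomputable def adj {n : ℕ} (H X : Matrix (Fin n) (Fin n) 𝕜) : Matrix (Fin n) (Fin n) 𝕜 :=
  H⁻¹ * Xᴴ * H

/-- The matrix `H`. -/
def matH (𝕜 : Type*) [RCLike 𝕜] : Matrix (Fin 4) (Fin 4) 𝕜 :=
  !![1, 0, 0, 0; 0, 1, 0, 0; 0, 0, -1, 0; 0, 0, 0, -1]

/-- The scalar `√2`. -/
noncomputable def rt (𝕜 : Type*) [RCLike 𝕜] : 𝕜 := ((√2 : ℝ) : 𝕜)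

/-- The matrix `X`. -/
noncomputable def matX (𝕜 : Type*) [RCLike 𝕜] : Matrix (Fin 4) (Fin 4) 𝕜 :=
  !![0, 0, rt 𝕜, 0; 0, 0, 0, rt 𝕜; 1, 0, 0, 0; 0, 1, 0, 0]

/-- The matrix `Y`. -/
noncomputable def matY (𝕜 : Type*) [RCLike 𝕜] : Matrix (Fin 4) (Fin 4) 𝕜 :=
  !![0, -1, 0, 0; 1, 0, 0, 0; 0, 0, 0, -rt 𝕜; 0, 0, rt 𝕜, 0]

/-- The matrix `X^[*] X`. -/
def matB (𝕜 : Type*) [RCLike 𝕜] : Matrix (Fin 4) (Fin 4) 𝕜 :=
  !![-1, 0, 0, 0; 0, -1, 0, 0; 0, 0, -2, 0; 0, 0, 0, -2]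

lemma rt_mul : rt 𝕜 * rt 𝕜 = 2 := by
  unfold rt
  rw [← RCLike.ofReal_mul, Real.mul_self_sqrt (by norm_num), RCLike.ofReal_ofNat]

lemma star_rt : star (rt 𝕜) = rt 𝕜 := RCLike.conj_ofReal _

lemma matH_mul : matH 𝕜 * matH 𝕜 = 1 := by
  ext i j
  fin_cases i <;> fin_cases j <;> simp [matH, Matrix.mul_apply, Fin.sum_univ_four]

lemma matH_inv : (matH 𝕜)⁻¹ = matH 𝕜 := Matrix.inv_eq_left_inv matH_mul

lemma matH_star : (matH 𝕜)ᴴ = matH 𝕜 := by
  ext i j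
  fin_cases i <;> fin_cases j <;> simp [matH]

lemma matX_star : (matX 𝕜)ᴴ = !![0, 0, 1, 0; 0, 0, 0, 1; rt 𝕜, 0, 0, 0; 0, rt 𝕜, 0, 0] := by
  have h : (starRingEnd 𝕜) (rt 𝕜) = rt 𝕜 := RCLike.conj_ofReal _
  ext i j
  fin_cases i <;> fin_cases j <;> simp [matX, h]

lemma adj_X : adj (matH 𝕜) (matX 𝕜) =
    !![0, 0, -1, 0; 0, 0, 0, -1; -rt 𝕜, 0, 0, 0; 0, -rt 𝕜, 0, 0] := by
  unfold adj
  rw [matH_inv, matX_star]
  ext i j
  fin_cases i <;> fin_cases j <;> simp [matH, Matrix.mul_apply, Fin.sum_univ_four]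

lemma adj_mul : adj (matH 𝕜) (matX 𝕜) * matX 𝕜 = matB 𝕜 := by
  rw [adj_X]
  ext i j
  fin_cases i <;> fin_cases j <;>
    simp [matX, matB, Matrix.mul_apply, Fin.sum_univ_four, rt_mul]

lemma matY_mul : matY 𝕜 * matY 𝕜 = matB 𝕜 := by
  ext i j
  fin_cases i <;> fin_cases j <;>
    simp [matY, matB, Matrix.mul_apply, Fin.sum_univ_four, rt_mul]

lemma det_ne : (matB 𝕜).det ≠ 0 := by
  have h : matB 𝕜 * !![-1, 0, 0, 0; 0, -1, 0, 0; 0, 0, -(1/2), 0; 0, 0, 0, -(1/2)] = 1 := by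
    ext i j
    fin_cases i <;> fin_cases j <;> simp [matB, Matrix.mul_apply, Fin.sum_univ_four]
  intro h0
  have := congrArg Matrix.det h
  rw [Matrix.det_mul, h0, zero_mul, Matrix.det_one] at this
  exact zero_ne_one this

lemma isUnit_X : IsUnit (matX 𝕜) := by
  rw [Matrix.isUnit_iff_isUnit_det, isUnit_iff_ne_zero]
  intro h
  apply det_ne (𝕜 := 𝕜)
  rw [← adj_mul, Matrix.det_mul, h, mul_zero]

lemma isUnit_Y : IsUnit (matY 𝕜) := by
  rw [Matrix.isUnit_iff_isUnit_det, isUnit_iff_ne_zero]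
  intro h
  apply det_ne (𝕜 := 𝕜)
  rw [← matY_mul, Matrix.det_mul, h, mul_zero]

/-- There is no `H`-selfadjoint square root of `X^[*] X`. -/
lemma no_root (A : Matrix (Fin 4) (Fin 4) 𝕜) (h1 : adj (matH 𝕜) A = A) : A * A ≠ matB 𝕜 := by
  intro h2
  have hcomm : A * matB 𝕜 = matB 𝕜 * A := by
    rw [← h2, Matrix.mul_assoc]
  have h02 : A 0 2 = 0 := by
    have := congrFun (congrFun hcomm 0) 2
    simp [matB, Matrix.mul_apply, Fin.sum_univ_four] at this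
    linear_combination this
  have h03 : A 0 3 = 0 := by
    have := congrFun (congrFun hcomm 0) 3
    simp [matB, Matrix.mul_apply, Fin.sum_univ_four] at this
    linear_combination this
  have h1' : matH 𝕜 * Aᴴ * matH 𝕜 = A := by
    unfold adj at h1
    rwa [matH_inv] at h1
  have h00 : star (A 0 0) = A 0 0 := by
    have := congrFun (congrFun h1' 0) 0
    simpa [matH, Matrix.mul_apply, Fin.sum_univ_four, Matrix.vecMul, dotProduct] using this
  have h10 : star (A 0 1) = A 1 0 := by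
    have := congrFun (congrFun h1' 1) 0
    simpa [matH, Matrix.mul_apply, Fin.sum_univ_four, Matrix.vecMul, dotProduct] using this
  have h3 := congrFun (congrFun h2 0) 0
  rw [Matrix.mul_apply, Fin.sum_univ_four, h02, h03, ← h10] at h3
  nth_rewrite 2 [← h00] at h3
  have h4 : (matB 𝕜) 0 0 = -1 := by simp [matB]
  rw [h4, zero_mul, zero_mul, add_zero, add_zero, RCLike.star_def, RCLike.mul_conj,
    RCLike.mul_conj] at h3
  have h5 : ((‖A 0 0‖ ^ 2 + ‖A 0 1‖ ^ 2 : ℝ) : 𝕜) = ((-1 : ℝ) : 𝕜) := by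
    push_cast
    exact h3
  have h6 := RCLike.ofReal_injective h5
  nlinarith [sq_nonneg ‖A 0 0‖, sq_nonneg ‖A 0 1‖]

/-- For real and for complex scalars there are an invertible hermitian `4 × 4` matrix `H` and
invertible matrices `X`, `Y` with `Y² = X^[*] X` such that no `H`-selfadjoint matrix has
the square `X^[*] X`. -/
theorem result (𝕜 : Type*) [RCLike 𝕜] : ∃ H X Y : Matrix (Fin 4) (Fin 4) 𝕜,
    IsUnit H ∧ Hᴴ = H ∧ IsUnit X ∧ IsUnit Y ∧ Y * Y = adj H X * X ∧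
      (∀ v : Fin 4 → 𝕜, Y *ᵥ v = 0 ↔ X *ᵥ v = 0) ∧
      ¬ ∃ A : Matrix (Fin 4) (Fin 4) 𝕜, adj H A = A ∧ A * A = adj H X * X := by
  refine ⟨matH 𝕜, matX 𝕜, matY 𝕜, ?_, matH_star, isUnit_X, isUnit_Y, ?_, ?_, ?_⟩
  · exact IsUnit.of_mul_eq_one _ matH_mul
  · rw [matY_mul, adj_mul]
  · intro v
    have hX := Matrix.mulVec_injective_of_isUnit (isUnit_X (𝕜 := 𝕜))
    have hY := Matrix.mulVec_injective_of_isUnit (isUnit_Y (𝕜 := 𝕜))
    constructor
    · intro h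
      have : v = 0 := hY (by simpa using h)
      rw [this, Matrix.mulVec_zero]
    · intro h
      have : v = 0 := hX (by simpa using h)
      rw [this, Matrix.mulVec_zero]
  · rintro ⟨A, h1, h2⟩
    rw [adj_mul] at h2
    exact no_root A h1 h2

end Pool.Agent.Results.MP_154e02_al.NoSelfadjointRoot
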